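import Pool.Agent.Y329.CG.Stm
import Pool.Agent.Helper180.FreeMetric

/-!
# Commuting elements of free groups
-/

set_option autoImplicit false

namespace Pool.Agent.Y168.CG

open Pool.Agent.Helper180.FreeMetric

theorem doneFG : Pool.Agent.Y329.CG.S_FG := by
  intro w u hw hc
  obtain ⟨r, hr1, hr2⟩ := centralizer_cyclic w hw
  obtain ⟨m, hm⟩ := hr2 w rfl
  have hr : r ≠ 1 := by
    intro h
    rw [h, one_zpow] at hm
    exact hw hm
  have hw1 : u * w * u⁻¹ ≠ 1 := by
    intro h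
    apply hw
    have h1 : w = u⁻¹ * (u * w * u⁻¹) * u := by group
    rw [h1, h]
    group
  have hw2 : u⁻¹ * w * u ≠ 1 := by
    intro h
    apply hw
    have h1 : w = u * (u⁻¹ * w * u) * u⁻¹ := by group
    rw [h1, h]
    group
  have hc' : w * (u⁻¹ * w * u) = (u⁻¹ * w * u) * w := by
    have h1 : w * (u⁻¹ * w * u) = u⁻¹ * ((u * w * u⁻¹) * w) * u := by group
    have h2 : (u⁻¹ * w * u) * w = u⁻¹ * (w * (u * w * u⁻¹)) * u := by group
    rw [h1, h2, hc]
  have ha : (u * r * u⁻¹) * w = w * (u * r * u⁻¹) := by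
    refine comm_trans (h := u * w * u⁻¹) hw1 ?_ hc
    have h1 : u * r * u⁻¹ * (u * w * u⁻¹) = u * (r * w) * u⁻¹ := by group
    have h2 : u * w * u⁻¹ * (u * r * u⁻¹) = u * (w * r) * u⁻¹ := by group
    rw [h1, h2, hr1]
  have hb : (u⁻¹ * r * u) * w = w * (u⁻¹ * r * u) := by
    refine comm_trans (h := u⁻¹ * w * u) hw2 ?_ hc'
    have h1 : u⁻¹ * r * u * (u⁻¹ * w * u) = u⁻¹ * (r * w) * u := by group
    have h2 : u⁻¹ * w * u * (u⁻¹ * r * u) = u⁻¹ * (w * r) * u := by group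
    rw [h1, h2, hr1]
  obtain ⟨a, ha⟩ := hr2 _ ha
  obtain ⟨b, hb⟩ := hr2 _ hb
  have hab : r ^ (a * b) = r := by
    rw [zpow_mul, ← ha, conj_zpow, ← hb]
    group
  have hab1 : a * b = 1 := by
    have h1 : r ^ (a * b - 1) = 1 := by
      rw [zpow_sub, hab, zpow_one, mul_inv_cancel]
    have h2 := (IsMulTorsionFree.zpow_eq_one_iff_right hr).1 h1
    omega
  rcases Int.mul_eq_one_iff_eq_one_or_neg_one.1 hab1 with h | h
  · rw [h.1, zpow_one] at ha
    rw [hm, ← conj_zpow, ha]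
  · exfalso
    rw [h.1, zpow_neg, zpow_one] at ha
    have h3 : ∀ y : FreeGroup (Fin 2), y = y⁻¹ → y = 1 := by
      intro y hy
      have h4 : y ^ 2 = 1 := by
        rw [pow_two]
        nth_rewrite 1 [hy]
        rw [inv_mul_cancel]
      exact (pow_eq_one_iff_left (by norm_num)).1 h4
    have h5 : u * r = r * u := by
      by_cases hu : u = 1
      · rw [hu, one_mul, mul_one]
      · have hu2 : u ^ 2 ≠ 1 := fun h => hu ((pow_eq_one_iff_left (by norm_num)).1 h)
        refine comm_trans (h := u ^ 2) hu2 ?_ ?_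
        · rw [← pow_succ, ← pow_succ']
        · have h6 : u * (u * r * u⁻¹) * u⁻¹ = r := by
            rw [ha]
            have h7 : u * r⁻¹ * u⁻¹ = (u * r * u⁻¹)⁻¹ := by group
            rw [h7, ha, inv_inv]
          have h8 : u ^ 2 * r = (u * (u * r * u⁻¹) * u⁻¹) * u ^ 2 := by
            rw [pow_two]
            group
          rw [h8, h6]
    apply hr
    apply h3
    rw [← ha, h5]
    group

theorem doneCG : Pool.Agent.Y329.CG.S_CG := by
  intro w hw
  have h1 : (FreeGroup.of (1 : Fin 2)) ≠ 1 := FreeGroup.of_ne_one 1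
  obtain ⟨g, -, hg⟩ := centralizer_cyclic (FreeGroup.of (1 : Fin 2)) h1
  obtain ⟨n, hn⟩ := hg _ rfl
  obtain ⟨k, hk⟩ := hg w hw
  let φ : FreeGroup (Fin 2) →* Multiplicative ℤ :=
    FreeGroup.lift fun i => if i = 1 then Multiplicative.ofAdd 1 else 1
  have h2 : φ (FreeGroup.of 1) = Multiplicative.ofAdd 1 := by
    simp [φ]
  have h3 : (1 : ℤ) = n * Multiplicative.toAdd (φ g) := by
    have h4 := congrArg (fun x => Multiplicative.toAdd (φ x)) hn
    rw [h2, map_zpow, toAdd_zpow, toAdd_ofAdd, smul_eq_mul] at h4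
    exact h4
  rcases Int.mul_eq_one_iff_eq_one_or_neg_one.1 h3.symm with h | h
  · rw [h.1, zpow_one] at hn
    exact ⟨k, by rw [hk, hn]⟩
  · rw [h.1, zpow_neg, zpow_one] at hn
    exact ⟨-k, by rw [hk, hn, inv_zpow, zpow_neg, inv_inv]⟩

end Pool.Agent.Y168.CG
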